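import Mathlib
import Pool.Agent.Helper96.SR.Main

open MeasureTheory Pool.Agent.Helper96.SR

namespace Pool.Agent.Results.MP_6a2436_an.OuterSolutionsNotNested

/-- For every dimension `N ≥ 2` and every conductivity `σc > 0`, `σc ≠ 1`, there are a core `D`
and two solutions `Ω₁`, `Ω₂` of the outer two-phase Serrin problem for `D` with
`|Ω₁| < |Ω₂|` and `Ω₁ ⊄ Ω₂`. -/
theorem result (N : ℕ) (hN : 2 ≤ N) (σc : ℝ) (hσ : 0 < σc) (hσ1 : σc ≠ 1) :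
    ∃ D Ω₁ Ω₂ : Set (E N), IsDom D ∧ IsDom Ω₁ ∧ IsDom Ω₂ ∧ IsSol σc D Ω₁ ∧ IsSol σc D Ω₂ ∧
      volume Ω₁ < volume Ω₂ ∧ ¬ Ω₁ ⊆ Ω₂ :=
  outer_not_ordered N hN σc hσ hσ1

end Pool.Agent.Results.MP_6a2436_an.OuterSolutionsNotNested
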